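import Pool.Agent.Q84.VarExp

/-!
# MP_598c7e: a bounded Fourier transform between variable Lebesgue spaces whose defect exponents
`r(·)`, `s(·)` both fail to have `1` in their spaces.
-/

set_option autoImplicit false

namespace Pool.Agent.Results.MP_598c7e_an.DefectExponents

open MeasureTheory Set FourierTransform Pool.Agent.Q84.VarExp
open scoped ENNReal NNReal

/-- an exponent: a measurable function `ℝ → [1, ∞]` -/
def IsExponent (p : ℝ → ℝ≥0∞) : Prop := Measurable p ∧ ∀ x, 1 ≤ p x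

/-- the modular `ρ_p(f) = ∫_{p < ∞} |f|^{p(x)} dx + ‖f‖_{L^∞({p = ∞})}` -/
noncomputable def modular (p : ℝ → ℝ≥0∞) (f : ℝ → ℂ) : ℝ≥0∞ :=
  (∫⁻ x in {x | p x ≠ ∞}, ‖f x‖ₑ ^ (p x).toReal) +
    eLpNormEssSup f (volume.restrict {x | p x = ∞})

/-- membership in the variable Lebesgue space `L^{p(·)}(ℝ)` -/
def VMem (p : ℝ → ℝ≥0∞) (f : ℝ → ℂ) : Prop :=
  AEStronglyMeasurable f volume ∧ ∃ lam : ℝ, 0 < lam ∧ modular p (fun x => f x / lam) < ∞

/-- the norm `‖f‖_{p(·)} = inf {λ > 0 : ρ_p(f/λ) ≤ 1}` -/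
noncomputable def vnorm (p : ℝ → ℝ≥0∞) (f : ℝ → ℂ) : ℝ≥0∞ :=
  sInf {y : ℝ≥0∞ | ∃ lam : ℝ, 0 < lam ∧ y = ENNReal.ofReal lam ∧
    modular p (fun x => f x / lam) ≤ 1}

/-- the Fourier transform `𝓕 : L^{p(·)} → L^{q(·)}` is bounded -/
def FourierBounded (p q : ℝ → ℝ≥0∞) : Prop :=
  ∃ C : ℝ≥0, ∀ f : ℝ → ℂ, Integrable f → VMem p f → vnorm q (𝓕 f) ≤ C * vnorm p f

/-- `p_-`, the essential infimum -/
noncomputable def pminus (p : ℝ → ℝ≥0∞) : ℝ≥0∞ := essInf p volume

/-- the defect exponent `r`: `1/r(x) = 1/p_- - 1/p(x)` -/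
noncomputable def rexp (p : ℝ → ℝ≥0∞) (x : ℝ) : ℝ≥0∞ := ((pminus p)⁻¹ - (p x)⁻¹)⁻¹

/-- the defect exponent `s`: `1/s(x) = 1/q(x) - 1/(p_-)'`, where `1/(p_-)' = 1 - 1/p_-` -/
noncomputable def sexp (p q : ℝ → ℝ≥0∞) (x : ℝ) : ℝ≥0∞ :=
  ((q x)⁻¹ - (1 - (pminus p)⁻¹))⁻¹

/-- the source exponent -/
noncomputable def p0 (x : ℝ) : ℝ≥0∞ := by
  classical
  exact if x ∈ EE then 2 else 4 / 3

/-- the target exponent -/
noncomputable def q0 (x : ℝ) : ℝ≥0∞ := by
  classical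
  exact if x ∈ EE then 2 else 4

lemma p0_in {x : ℝ} (h : x ∈ EE) : p0 x = 2 := by simp [p0, h]
lemma p0_out {x : ℝ} (h : x ∉ EE) : p0 x = 4 / 3 := by simp [p0, h]
lemma q0_in {x : ℝ} (h : x ∈ EE) : q0 x = 2 := by simp [q0, h]
lemma q0_out {x : ℝ} (h : x ∉ EE) : q0 x = 4 := by simp [q0, h]

lemma one_le_43 : (1 : ℝ≥0∞) ≤ 4 / 3 := by
  rw [ENNReal.le_div_iff_mul_le (by norm_num) (by norm_num)]
  norm_num

lemma le_43_2 : (4 / 3 : ℝ≥0∞) ≤ 2 := by
  rw [ENNReal.div_le_iff (by norm_num) (by norm_num)]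
  norm_num

lemma ne_top_43 : (4 / 3 : ℝ≥0∞) ≠ ∞ := ne_top_of_le_ne_top (by norm_num) le_43_2

lemma toReal_43 : (4 / 3 : ℝ≥0∞).toReal = 4 / 3 := by
  rw [ENNReal.toReal_div]
  norm_num

lemma p0_exp : IsExponent p0 := by
  constructor
  · unfold p0
    exact Measurable.ite measurableSet_EE measurable_const measurable_const
  · intro x
    by_cases h : x ∈ EE
    · rw [p0_in h]; norm_num
    · rw [p0_out h]; exact one_le_43

lemma q0_exp : IsExponent q0 := by
  constructor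
  · unfold q0
    exact Measurable.ite measurableSet_EE measurable_const measurable_const
  · intro x
    by_cases h : x ∈ EE
    · rw [q0_in h]; norm_num
    · rw [q0_out h]; norm_num

lemma p0_fin (x : ℝ) : p0 x ≠ ∞ := by
  by_cases h : x ∈ EE
  · rw [p0_in h]; norm_num
  · rw [p0_out h]; exact ne_top_43

lemma q0_fin (x : ℝ) : q0 x ≠ ∞ := by
  by_cases h : x ∈ EE
  · rw [q0_in h]; norm_num
  · rw [q0_out h]; norm_num

lemma neg_not_mem {x : ℝ} (h : x < 0) : x ∉ EE := by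
  intro hx
  obtain ⟨n, hn⟩ := mem_iUnion.mp hx
  unfold En at hn
  have : (0 : ℝ) < 4 ^ (n + 1) := by positivity
  linarith [hn.1]

lemma pminus_p0 : pminus p0 = 4 / 3 := by
  unfold pminus
  apply le_antisymm
  · have h1 : ∀ᵐ x ∂(volume : Measure ℝ), essInf p0 volume ≤ p0 x := ae_essInf_le
    have h2 : ∃ x ∈ Iio (0 : ℝ), essInf p0 volume ≤ p0 x := by
      by_contra hcon
      push Not at hcon
      have h3 : (volume : Measure ℝ) (Iio (0 : ℝ)) = 0 := by
        have h4 : Iio (0 : ℝ) ⊆ {x | ¬ essInf p0 volume ≤ p0 x} := by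
          intro x hx
          exact not_le.mpr (hcon x hx)
        exact measure_mono_null h4 (ae_iff.mp h1)
      rw [Real.volume_Iio] at h3
      exact ENNReal.top_ne_zero h3
    obtain ⟨x, hx, hle⟩ := h2
    rwa [p0_out (neg_not_mem hx)] at hle
  · refine le_essInf_of_ae_le _ ?_ (by isBoundedDefault)
    apply Filter.Eventually.of_forall
    intro x
    by_cases h : x ∈ EE
    · rw [p0_in h]; exact le_43_2
    · rw [p0_out h]

lemma inv_43 : (4 / 3 : ℝ≥0∞)⁻¹ = 3 / 4 := by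
  rw [ENNReal.inv_div (by norm_num) (by norm_num)]

lemma arith1 : (3 / 4 : ℝ≥0∞) = 4⁻¹ + 2⁻¹ := by
  have h1 : (3 / 4 : ℝ≥0∞) ≠ ∞ := ENNReal.div_ne_top (by norm_num) (by norm_num)
  have h2 : (4⁻¹ + 2⁻¹ : ℝ≥0∞) ≠ ∞ := by simp
  rw [← ENNReal.toReal_eq_toReal_iff' h1 h2, ENNReal.toReal_add (by simp) (by simp),
    ENNReal.toReal_div, ENNReal.toReal_inv, ENNReal.toReal_inv]
  norm_num

lemma arith2 : (1 : ℝ≥0∞) = 4⁻¹ + 3 / 4 := by
  have h1 : (3 / 4 : ℝ≥0∞) ≠ ∞ := ENNReal.div_ne_top (by norm_num) (by norm_num)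
  have h2 : (4⁻¹ + 3 / 4 : ℝ≥0∞) ≠ ∞ := by simp [h1]
  rw [← ENNReal.toReal_eq_toReal_iff' (by norm_num) h2, ENNReal.toReal_add (by simp) h1,
    ENNReal.toReal_div, ENNReal.toReal_inv]
  norm_num

lemma arith3 : (2⁻¹ : ℝ≥0∞) = 4⁻¹ + 4⁻¹ := by
  rw [← ENNReal.toReal_eq_toReal_iff' (by simp) (by simp), ENNReal.toReal_add (by simp) (by simp),
    ENNReal.toReal_inv, ENNReal.toReal_inv]
  norm_num

lemma rexp_in {x : ℝ} (h : x ∈ EE) : rexp p0 x = 4 := by
  have : (3 / 4 : ℝ≥0∞) - 2⁻¹ = 4⁻¹ :=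
    ENNReal.sub_eq_of_eq_add (by simp) arith1
  rw [rexp, pminus_p0, p0_in h, inv_43, this, inv_inv]

lemma rexp_out {x : ℝ} (h : x ∉ EE) : rexp p0 x = ∞ := by
  rw [rexp, pminus_p0, p0_out h, tsub_self, ENNReal.inv_zero]

lemma conj_eq : (1 : ℝ≥0∞) - (3 / 4) = 4⁻¹ :=
  ENNReal.sub_eq_of_eq_add (ENNReal.div_ne_top (by norm_num) (by norm_num)) arith2

lemma sexp_in {x : ℝ} (h : x ∈ EE) : sexp p0 q0 x = 4 := by
  have : (2⁻¹ : ℝ≥0∞) - 4⁻¹ = 4⁻¹ := ENNReal.sub_eq_of_eq_add (by simp) arith3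
  rw [sexp, pminus_p0, q0_in h, inv_43, conj_eq, this, inv_inv]

lemma sexp_out {x : ℝ} (h : x ∉ EE) : sexp p0 q0 x = ∞ := by
  rw [sexp, pminus_p0, q0_out h, inv_43, conj_eq, tsub_self, ENNReal.inv_zero]

lemma not_mem_of (r : ℝ → ℝ≥0∞) (hin : ∀ x ∈ EE, r x = 4) (hout : ∀ x, x ∉ EE → r x = ∞) :
    ¬ VMem r (fun _ => 1) := by
  rintro ⟨_, lam, hlam, h⟩
  unfold modular at h
  have hset : {x | r x ≠ ∞} = EE := by
    ext x
    simp only [Set.mem_ofPred_eq]
    constructor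
    · intro hx
      by_contra hcon
      exact hx (hout x hcon)
    · intro hx
      rw [hin x hx]
      norm_num
  have h1 := lt_of_le_of_lt (le_self_add) h
  rw [hset] at h1
  have h2 : ∫⁻ x in EE, ‖(1 : ℂ) / (lam : ℂ)‖ₑ ^ (r x).toReal =
      ∫⁻ x in EE, ‖(1 : ℂ) / (lam : ℂ)‖ₑ ^ (4 : ℝ) := by
    apply setLIntegral_congr_fun measurableSet_EE
    intro x hx
    simp only
    rw [hin x hx]
    norm_num
  rw [h2, setLIntegral_const, volume_EE] at h1
  have h3 : ‖(1 : ℂ) / (lam : ℂ)‖ₑ ^ (4 : ℝ) ≠ 0 := by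
    have h4 : ‖(1 : ℂ) / (lam : ℂ)‖ₑ ≠ 0 := by
      rw [enorm_ne_zero]
      apply div_ne_zero one_ne_zero
      exact_mod_cast hlam.ne'
    have h5 : ‖(1 : ℂ) / (lam : ℂ)‖ₑ ≠ ∞ := enorm_ne_top
    exact (ENNReal.rpow_pos (pos_iff_ne_zero.mpr h4) h5).ne'
  rw [ENNReal.mul_top h3] at h1
  exact lt_irrefl _ h1

lemma modular_p0 (h : ℝ → ℂ) : modular p0 h =
    (∫⁻ x in EE, ‖h x‖ₑ ^ 2) + ∫⁻ x in EEᶜ, ‖h x‖ₑ ^ (4 / 3 : ℝ) := by
  unfold modular
  have hset : {x | p0 x ≠ ∞} = univ := by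
    ext x
    simp [p0_fin x]
  have hset2 : {x | p0 x = ∞} = ∅ := by
    ext x
    simp [p0_fin x]
  rw [hset, hset2, Measure.restrict_empty, Measure.restrict_univ, eLpNormEssSup_measure_zero,
    add_zero, ← lintegral_add_compl _ measurableSet_EE]
  congr 1
  · apply setLIntegral_congr_fun measurableSet_EE
    intro x hx
    simp only
    rw [p0_in hx]
    norm_num
  · apply setLIntegral_congr_fun measurableSet_EE.compl
    intro x hx
    simp only
    rw [p0_out hx, toReal_43]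

lemma modular_q0 (h : ℝ → ℂ) : modular q0 h =
    (∫⁻ x in EE, ‖h x‖ₑ ^ 2) + ∫⁻ x in EEᶜ, ‖h x‖ₑ ^ 4 := by
  unfold modular
  have hset : {x | q0 x ≠ ∞} = univ := by
    ext x
    simp [q0_fin x]
  have hset2 : {x | q0 x = ∞} = ∅ := by
    ext x
    simp [q0_fin x]
  rw [hset, hset2, Measure.restrict_empty, Measure.restrict_univ, eLpNormEssSup_measure_zero,
    add_zero, ← lintegral_add_compl _ measurableSet_EE]
  congr 1
  · apply setLIntegral_congr_fun measurableSet_EE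
    intro x hx
    simp only
    rw [q0_in hx]
    norm_num
  · apply setLIntegral_congr_fun measurableSet_EE.compl
    intro x hx
    simp only
    rw [q0_out hx]
    norm_num

lemma add_sq_le (a b : ℝ≥0∞) : (a + b) ^ 2 ≤ 2 * (a ^ 2 + b ^ 2) := by
  have := ENNReal.rpow_add_le_mul_rpow_add_rpow a b (p := 2) (by norm_num)
  simp only [ENNReal.rpow_ofNat] at this
  norm_num at this
  exact this

lemma add_four_le (a b : ℝ≥0∞) : (a + b) ^ 4 ≤ 8 * (a ^ 4 + b ^ 4) := by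
  have := ENNReal.rpow_add_le_mul_rpow_add_rpow a b (p := 4) (by norm_num)
  have e : (2 : ℝ≥0∞) ^ ((4 : ℝ) - 1) = 8 := by
    have : ((4 : ℝ) - 1) = ((3 : ℕ) : ℝ) := by norm_num
    rw [this, ENNReal.rpow_natCast]
    norm_num
  rw [e] at this
  simp only [ENNReal.rpow_ofNat] at this
  exact this

lemma bounded : FourierBounded p0 q0 := by
  refine ⟨4, ?_⟩
  intro f hf _
  -- the key estimate
  have key : ∀ lam : ℝ, 0 < lam → modular p0 (fun x => f x / lam) ≤ 1 →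
      vnorm q0 (𝓕 f) ≤ 4 * ENNReal.ofReal lam := by
    intro lam hlam hmod
    set h : ℝ → ℂ := fun x => f x / lam with hh
    have hint : Integrable h := hf.div_const _
    rw [modular_p0] at hmod
    set h1 : ℝ → ℂ := EE.indicator h with hh1
    set h2 : ℝ → ℂ := EEᶜ.indicator h with hh2
    have hint1 : Integrable h1 := hint.indicator measurableSet_EE
    have hint2 : Integrable h2 := hint.indicator measurableSet_EE.compl
    have hsum : h = h1 + h2 := (indicator_self_add_compl EE h).symm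
    have hB : ∫⁻ x, ‖h1 x‖ₑ ^ 2 ≤ 1 := by
      have e : ∫⁻ x, ‖h1 x‖ₑ ^ 2 = ∫⁻ x in EE, ‖h x‖ₑ ^ 2 := by
        rw [← lintegral_indicator measurableSet_EE]
        apply lintegral_congr
        intro x
        by_cases hx : x ∈ EE
        · rw [hh1, indicator_of_mem hx, indicator_of_mem hx]
        · rw [hh1, indicator_of_notMem hx, indicator_of_notMem hx]; simp
      rw [e]
      exact le_trans le_self_add hmod
    have hA : ∫⁻ x, ‖h2 x‖ₑ ^ (4 / 3 : ℝ) ≤ 1 := by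
      have e : ∫⁻ x, ‖h2 x‖ₑ ^ (4 / 3 : ℝ) = ∫⁻ x in EEᶜ, ‖h x‖ₑ ^ (4 / 3 : ℝ) := by
        rw [← lintegral_indicator measurableSet_EE.compl]
        apply lintegral_congr
        intro x
        by_cases hx : x ∈ EEᶜ
        · rw [hh2, indicator_of_mem hx, indicator_of_mem hx]
        · rw [hh2, indicator_of_notMem hx, indicator_of_notMem hx]; simp
      rw [e]
      exact le_trans le_add_self hmod
    have hF : ∀ y, 𝓕 h y = 𝓕 h1 y + 𝓕 h2 y := by
      intro y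
      rw [hsum, Real.fourier_eq, Real.fourier_eq, Real.fourier_eq, ← integral_add]
      · apply integral_congr_ae
        apply Filter.Eventually.of_forall
        intro x
        simp only [Pi.add_apply, smul_add]
      · exact (Real.fourierIntegral_convergent_iff y).mpr hint1
      · exact (Real.fourierIntegral_convergent_iff y).mpr hint2
    have hFf : ∀ y, 𝓕 h y = 𝓕 f y / lam := by
      intro y
      rw [Real.fourier_eq, Real.fourier_eq, ← integral_div]
      apply integral_congr_ae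
      apply Filter.Eventually.of_forall
      intro x
      simp only [hh]
      rw [smul_div_assoc]
    -- the four estimates
    have b1 : ∫⁻ y, ‖𝓕 h1 y‖ₑ ^ 2 ≤ 1 := by
      rw [plancherel h1 hint1]
      · exact hB
      · refine ⟨hint1.aestronglyMeasurable, ?_⟩
        rw [eLpNorm_lt_top_iff_lintegral_rpow_enorm_lt_top (by norm_num) (by norm_num)]
        simp only [ENNReal.toReal_ofNat, ENNReal.rpow_ofNat]
        exact lt_of_le_of_lt hB ENNReal.one_lt_top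
    have b2 : ∫⁻ y in EE, ‖𝓕 h2 y‖ₑ ^ 2 ≤ 2 := dual_bound hint2 hA
    have b3 : ∫⁻ y, ‖𝓕 h1 y‖ₑ ^ 4 ≤ 2 := by
      have h3 := sparse_bound hint1 (fun x hx => by rw [hh1, indicator_of_notMem hx])
        (ne_top_of_le_ne_top ENNReal.one_ne_top hB)
      refine h3.trans ?_
      calc 2 * (∫⁻ x, ‖h1 x‖ₑ ^ 2) ^ 2 ≤ 2 * 1 ^ 2 := by gcongr
        _ = 2 := by norm_num
    have b4 : ∫⁻ y, ‖𝓕 h2 y‖ₑ ^ 4 ≤ 1 := by
      have h3 := hausdorff_young hint2 (ne_top_of_le_ne_top ENNReal.one_ne_top hA)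
      refine h3.trans ?_
      calc (∫⁻ x, ‖h2 x‖ₑ ^ (4 / 3 : ℝ)) ^ 3 ≤ 1 ^ 3 := by gcongr
        _ = 1 := by norm_num
    have c1 : ∫⁻ y in EE, ‖𝓕 h y‖ₑ ^ 2 ≤ 6 := by
      calc ∫⁻ y in EE, ‖𝓕 h y‖ₑ ^ 2
          ≤ ∫⁻ y in EE, 2 * (‖𝓕 h1 y‖ₑ ^ 2 + ‖𝓕 h2 y‖ₑ ^ 2) := by
            apply lintegral_mono
            intro y
            simp only
            rw [hF y]
            refine le_trans (pow_le_pow_left' (enorm_add_le _ _) 2) (add_sq_le _ _)
        _ = 2 * ((∫⁻ y in EE, ‖𝓕 h1 y‖ₑ ^ 2) + (∫⁻ y in EE, ‖𝓕 h2 y‖ₑ ^ 2)) := by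
            rw [lintegral_const_mul' _ _ (by norm_num), lintegral_add_left']
            exact ((continuous_fourier hint1).aestronglyMeasurable.enorm).pow_const 2
        _ ≤ 2 * (1 + 2) := by
            gcongr
            exact (setLIntegral_le_lintegral _ _).trans b1
        _ = 6 := by norm_num
    have c2 : ∫⁻ y in EEᶜ, ‖𝓕 h y‖ₑ ^ 4 ≤ 24 := by
      calc ∫⁻ y in EEᶜ, ‖𝓕 h y‖ₑ ^ 4
          ≤ ∫⁻ y in EEᶜ, 8 * (‖𝓕 h1 y‖ₑ ^ 4 + ‖𝓕 h2 y‖ₑ ^ 4) := by
            apply lintegral_mono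
            intro y
            simp only
            rw [hF y]
            refine le_trans (pow_le_pow_left' (enorm_add_le _ _) 4) (add_four_le _ _)
        _ = 8 * ((∫⁻ y in EEᶜ, ‖𝓕 h1 y‖ₑ ^ 4) + (∫⁻ y in EEᶜ, ‖𝓕 h2 y‖ₑ ^ 4)) := by
            rw [lintegral_const_mul' _ _ (by norm_num), lintegral_add_left']
            exact ((continuous_fourier hint1).aestronglyMeasurable.enorm).pow_const 4
        _ ≤ 8 * (2 + 1) := by
            gcongr
            · exact (setLIntegral_le_lintegral _ _).trans b3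
            · exact (setLIntegral_le_lintegral _ _).trans b4
        _ = 24 := by norm_num
    -- conclusion
    have hfin : modular q0 (fun y => 𝓕 f y / ((4 * lam : ℝ) : ℂ)) ≤ 1 := by
      rw [modular_q0]
      have e0 : ∀ y, ‖𝓕 f y / ((4 * lam : ℝ) : ℂ)‖ₑ = 4⁻¹ * ‖𝓕 h y‖ₑ := by
        intro y
        rw [hFf y]
        have : 𝓕 f y / ((4 * lam : ℝ) : ℂ) = (4 : ℂ)⁻¹ * (𝓕 f y / lam) := by
          have : (lam : ℂ) ≠ 0 := by exact_mod_cast hlam.ne'
          push_cast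
          field_simp
        rw [this, enorm_mul]
        congr 1
        rw [enorm_inv (by norm_num)]
        congr 1
        rw [← ofReal_norm]
        norm_num
      simp only [e0, mul_pow]
      rw [lintegral_const_mul' _ _ (by simp), lintegral_const_mul' _ _ (by simp)]
      calc 4⁻¹ ^ 2 * (∫⁻ y in EE, ‖𝓕 h y‖ₑ ^ 2) + 4⁻¹ ^ 4 * (∫⁻ y in EEᶜ, ‖𝓕 h y‖ₑ ^ 4)
          ≤ 4⁻¹ ^ 2 * 6 + 4⁻¹ ^ 4 * 24 := by gcongr
        _ ≤ 1 := by
          have ht : (4⁻¹ ^ 2 * 6 + 4⁻¹ ^ 4 * 24 : ℝ≥0∞) ≠ ∞ := by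
            apply ENNReal.add_ne_top.mpr
            constructor
            · exact ENNReal.mul_ne_top (ENNReal.pow_ne_top (by simp)) (by norm_num)
            · exact ENNReal.mul_ne_top (ENNReal.pow_ne_top (by simp)) (by norm_num)
          rw [← ENNReal.toReal_le_toReal ht (by norm_num), ENNReal.toReal_add
            (ENNReal.mul_ne_top (ENNReal.pow_ne_top (by simp)) (by norm_num))
            (ENNReal.mul_ne_top (ENNReal.pow_ne_top (by simp)) (by norm_num))]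
          simp only [ENNReal.toReal_mul, ENNReal.toReal_pow, ENNReal.toReal_inv,
            ENNReal.toReal_ofNat, ENNReal.toReal_one]
          norm_num
    have : vnorm q0 (𝓕 f) ≤ ENNReal.ofReal (4 * lam) := by
      apply sInf_le
      exact ⟨4 * lam, by positivity, rfl, hfin⟩
    refine this.trans (le_of_eq ?_)
    rw [ENNReal.ofReal_mul (by norm_num)]
    norm_num
  -- pass to the infimum
  by_contra hcon
  push Not at hcon
  have h1 : vnorm p0 f < vnorm q0 (𝓕 f) / 4 := by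
    rw [ENNReal.lt_div_iff_mul_lt (by norm_num) (by norm_num), mul_comm]
    exact_mod_cast hcon
  obtain ⟨y, ⟨lam, hlam, rfl, hmod⟩, hlt⟩ := sInf_lt_iff.mp h1
  have h2 := key lam hlam hmod
  rw [ENNReal.lt_div_iff_mul_lt (by norm_num) (by norm_num), mul_comm] at hlt
  exact absurd h2 (not_le.mpr hlt)

/-- **Theorem.** There are exponents `p(·), q(·)`, with values in `{4/3, 2}` and `{2, 4}`, such that
the Fourier transform is bounded from `L^{p(·)}` to `L^{q(·)}`, `p_- = 4/3`, and `1` belongs neither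
to `L^{r(·)}` nor to `L^{s(·)}`. -/
theorem result : ∃ p q : ℝ → ℝ≥0∞, IsExponent p ∧ IsExponent q ∧ FourierBounded p q ∧
    IsExponent (rexp p) ∧ IsExponent (sexp p q) ∧
    (∀ x, (rexp p x)⁻¹ + (p x)⁻¹ = (pminus p)⁻¹) ∧
    (∀ x, (sexp p q x)⁻¹ + (1 - (pminus p)⁻¹) = (q x)⁻¹) ∧
    ¬ VMem (rexp p) (fun _ => 1) ∧ ¬ VMem (sexp p q) (fun _ => 1) := by
  refine ⟨p0, q0, p0_exp, q0_exp, bounded, ?_, ?_, ?_, ?_, ?_, ?_⟩
  · constructor
    · unfold rexp
      exact (measurable_const.sub p0_exp.1.inv).inv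
    · intro x
      by_cases h : x ∈ EE
      · rw [rexp_in h]; norm_num
      · rw [rexp_out h]; exact le_top
  · constructor
    · unfold sexp
      exact (q0_exp.1.inv.sub measurable_const).inv
    · intro x
      by_cases h : x ∈ EE
      · rw [sexp_in h]; norm_num
      · rw [sexp_out h]; exact le_top
  · intro x
    rw [pminus_p0, inv_43]
    by_cases h : x ∈ EE
    · rw [rexp_in h, p0_in h, arith1]
    · rw [rexp_out h, p0_out h, inv_43, ENNReal.inv_top, zero_add]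
  · intro x
    rw [pminus_p0, inv_43, conj_eq]
    by_cases h : x ∈ EE
    · rw [sexp_in h, q0_in h, arith3]
    · rw [sexp_out h, q0_out h, ENNReal.inv_top, zero_add]
  · exact not_mem_of _ (fun x h => rexp_in h) (fun x h => rexp_out h)
  · exact not_mem_of _ (fun x h => sexp_in h) (fun x h => sexp_out h)

end Pool.Agent.Results.MP_598c7e_an.DefectExponents
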